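import Pool.Agent.SZT.StmtsA

/-!
# Squad SZT, row UVL: upper bound for a split polynomial
-/

set_option autoImplicit false

namespace Pool.Agent.SZT.H40

open Polynomial
open Pool.Agent.MNT (QU vC)

theorem uvl_aux {E : Type} [Field E] (v : AbsoluteValue E ℝ) (c₀ : ℝ) (hQ : QU v c₀) (x p : E)
    (hxp : x ≠ p) (Z : Multiset E) : (∀ ζ ∈ Z, x ≠ ζ) →
    (Z.map fun ζ => v (x - ζ)).prod ≠ 0 ∧
    Real.log ((Z.map fun ζ => v (x - ζ)).prod) ≤
      (Multiset.card Z : ℝ) * c₀ + JJ v Z p (v (x - p)) := by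
  induction Z using Multiset.induction_on with
  | empty =>
    intro _
    simp [JJ]
  | cons a Z ih =>
    intro hZ
    obtain ⟨ih1, ih2⟩ := ih fun ζ hζ => hZ ζ (Multiset.mem_cons_of_mem hζ)
    have ha : x ≠ a := hZ a (Multiset.mem_cons_self a Z)
    have hva : v (x - a) ≠ 0 := v.ne_zero_iff.2 (sub_ne_zero.2 ha)
    have hvp : 0 < v (x - p) := v.pos_iff.2 (sub_ne_zero.2 hxp)
    have hJ : JJ v (a ::ₘ Z) p (v (x - p)) =
        Real.log (max (v (x - p)) (v (a - p))) + JJ v Z p (v (x - p)) := by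
      unfold JJ
      rw [Multiset.map_cons, Multiset.sum_cons]
    have hle : v (x - a) ≤ Real.exp c₀ * max (v (x - p)) (v (a - p)) := by
      have h1 : x - a = (x - p) + -(a - p) := by ring
      have h2 := hQ.2 (x - p) (-(a - p))
      rw [← h1, v.map_neg] at h2
      exact h2
    have hlog : Real.log (v (x - a)) ≤ c₀ + Real.log (max (v (x - p)) (v (a - p))) := by
      have h3 := Real.log_le_log (lt_of_le_of_ne (v.nonneg _) (Ne.symm hva)) hle
      rw [Real.log_mul (Real.exp_pos _).ne' (lt_max_of_lt_left hvp).ne', Real.log_exp] at h3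
      exact h3
    rw [Multiset.map_cons, Multiset.prod_cons, Multiset.card_cons, hJ]
    refine ⟨mul_ne_zero hva ih1, ?_⟩
    rw [Real.log_mul hva ih1]
    push_cast
    linarith

theorem uvl : UvlStmt := by
  intro E _ v c₀ hQ U hU hlead x p hxp hne
  have hU0 : U ≠ 0 := by
    rintro rfl
    simp at hne
  have h1 : U.eval x = U.leadingCoeff * (U.roots.map (fun ζ => x - ζ)).prod :=
    hU.eval_eq_prod_roots x
  have hv1 : v U.leadingCoeff = 1 := by
    have h2 : v U.leadingCoeff ^ 2 = 1 := by rw [← map_pow, hlead, map_one]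
    have h3 := v.nonneg U.leadingCoeff
    nlinarith
  have h2 : v (U.eval x) = (U.roots.map (fun ζ => v (x - ζ))).prod := by
    rw [h1, map_mul, hv1, one_mul, map_multiset_prod, Multiset.map_map]
    rfl
  have h3 : ∀ ζ ∈ U.roots, x ≠ ζ := by
    rintro ζ hζ rfl
    exact hne ((mem_roots hU0).1 hζ)
  rw [h2]
  exact (uvl_aux v c₀ hQ x p hxp U.roots h3).2

end Pool.Agent.SZT.H40
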